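import Pool.Agent.TH839.TU.FamC

/-!
# One derivative of constant sign on a horizontal segment implies subconvexity, and the Lindelöf bound in the limit

Let `π` be a fixed cuspidal representation of `PGL(2)` over a number field `F`, `D ∈ O_F` square-free and
`Λ(s) = Λ(s, π ⊗ χ_D)` the completed L-function of the twist.  By the functional equation the function
`|Λ(1/2 + u)|²` of the real variable `u` is even; we consider it as a function of `x = u²`,

  `F(x) = log |Λ(1/2 + √x)|²`.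

If the Riemann hypothesis holds for `Λ`, then `F(x) = F(0) + ∑ log(1 + x / γ²)` (for `Λ(1/2) ≠ 0`), so `F'` is a
Stieltjes function, and `(-1)^k F^(k+1)(x) > 0` for all `x > 0` and all `k`.  We show that one of these inequalities on
the short interval `0 < x < 1/4 + δ`, that is on the segment from `1/2` to a point slightly to the right of the point
`1`, gives a strong bound for the central value: let `c_k = binom(2k, k) / 4^k`, so

  `c_0 = 1`, `c_1 = 1/2`, `c_2 = 3/8`, `c_3 = 5/16`, ..., `c_k ≤ (2k + 1)^(-1/2)`.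

If `Λ(1/2 + √x) ≠ 0` and `(-1)^k F^(k+1)(x) ≥ 0` for `0 < x < 1/4 + δ`, then

  `L(1/2, π ⊗ χ_D) ≪ |D|^(c_k / 2 + ε)`.

For `k = 0` (`F` is monotone) this is the convexity bound `1/2`; for `k = 1` (`F` is concave) it is `1/4`, beyond the
Weyl strength `1/3`; for `k = 2` it is `3/16`, and for `k → ∞` the exponent tends to `0`, the Lindelöf bound.  It is enough
that `(-1)^k F^(k+1)(x) ≥ -κ log |D|` for a small `κ = κ(k, δ, ε) > 0`.

The same holds at any height `T`: if `(-1)^k F^(k+1)(x) ≥ -κ log 𝔠` for `F(x) = log |Λ(1/2 + iT + √x)|²` and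
`0 < x < 1/4 + δ`, where `𝔠 = 𝔠(π, T)` is the analytic conductor, then `|L(1/2 + iT)| ≤ 𝔠^(c_k / 4 + ε)`.

The theorem holds for all families of L-functions of given degree with uniform upper and lower bounds to the right
of the critical strip, in particular for all twists of a fixed cuspidal representation by unitary characters.

Proof.  Let `h = (log 𝔠) / 2`.  To the right of the critical strip `|L|` is `𝔠^(o(1))`, and so by Stirling's formula
`F(t) = L_0 + 2 h √t + o(h)` for `1/4 < t ≤ 1`, where `L_0` corresponds to the gamma factor at the centre.  We want an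
upper bound for `F(0)`.  We have `(F(t) - F(0)) / t = ∫_0^1 F'(st) ds`, and so the `k`-th derivative of this function
of `t` has the sign `(-1)^k` (up to `o(h)`).  So its `k`-th signed difference with the nodes
`t_i = x_0 + i η`, `i = 0, ..., k`, is `≥ -o(h)`, where `x_0` is near `1/4` and `η` is small.  Inserting
the values at the nodes we get `(F(0) - L_0) Δ(1/t) ≤ 2 h Δ(t^(-1/2)) + o(h)` with the signed differences `Δ` of
`1/t` and `t^(-1/2)`.  For `η → 0` and `x_0 → 1/4` the quotient of these differences is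
`c_k x_0^(1/2) → c_k / 2`, and so `F(0) ≤ L_0 + (c_k + ε) h`.

The modules are `Pool.Agent.TH839.TU`.
-/

set_option autoImplicit false

namespace Pool.Agent.Results.MP_21d687_nt.DerivativeSigns

open scoped ComplexConjugate

/-- The data of an L-function of degree `m` over the rational numbers: the conductor `N`, the order `e` of the
pole at `s = 1`, the archimedean parameters `mu j` (the factor at infinity is `∏ j, Γ_ℝ (s + mu j)`), the Satake
parameters `α p j` and the completed function `Λ`.  For an L-function of degree `2` over a number field `F` the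
degree is `m = 2 [F : ℚ]`. -/
structure Datum (m : ℕ) where
  N : ℝ
  e : ℕ
  mu : Fin m → ℂ
  α : Nat.Primes → Fin m → ℂ
  Λ : ℂ → ℂ

namespace Datum

variable {m : ℕ}

/-- The gamma factor `(s (s - 1))^e N^(s/2) ∏ j, Γ_ℝ (s + mu j)`. -/
noncomputable def gamma (D : Datum m) (s : ℂ) : ℂ :=
  (s * (s - 1)) ^ D.e * ((D.N : ℂ) ^ (s / 2) * ∏ j, Complex.Gammaℝ (s + D.mu j))

/-- The L-function (without the factors at infinity) `L(s) = Λ(s) / gamma(s)` (used for `Re s ≥ 1/2`,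
`Re s ≠ 1` only). -/
noncomputable def L (D : Datum m) (s : ℂ) : ℂ := D.Λ s / D.gamma s

/-- The analytic conductor at height `T`. -/
noncomputable def C (D : Datum m) (T : ℝ) : ℝ := D.N * ∏ j, (1 + ‖(T : ℂ) * Complex.I + D.mu j‖)

/-- The classical properties: `N ≥ 1`, `e ≤ m`, `Re (mu j) ≥ -1/2 + c`, `|α p j| ≤ p^(1/2)`, `Λ` is
entire of finite order with the functional equation `Λ(1 - s) = w conj Λ(conj s)`, `|w| = 1`, and for large
`Re s` it is the product of `gamma(s)` and the Euler product `L(s) = ∏ p, ∏ j, (1 - α p j p^(-s))⁻¹`. -/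
structure Ok (D : Datum m) (c : ℝ) : Prop where
  N_ge : 1 ≤ D.N
  e_le : D.e ≤ m
  mu_re : ∀ j, -1 / 2 + c ≤ (D.mu j).re
  satake : ∀ p j, ‖D.α p j‖ ≤ ((p : ℕ) : ℝ) ^ (1 / 2 : ℝ)
  entire : Differentiable ℂ D.Λ
  order : ∃ B ρ : ℝ, ∀ s : ℂ, ‖D.Λ s‖ ≤ Real.exp (B * (1 + ‖s‖) ^ ρ)
  fe : ∃ w : ℂ, ‖w‖ = 1 ∧ ∀ s : ℂ, D.Λ (1 - s) = w * conj (D.Λ (conj s))
  euler : ∃ σ : ℝ, ∀ s : ℂ, σ ≤ s.re →
    D.Λ s = D.gamma s * ∏' p : Nat.Primes, ∏ j, (1 - D.α p j * ((p : ℕ) : ℂ) ^ (-s))⁻¹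

/-- The function `x ↦ log |Λ(1/2 + iT + √x)|²`, `x > 0`. -/
noncomputable def logSq (D : Datum m) (T x : ℝ) : ℝ :=
  Real.log (‖D.Λ (1 / 2 + (T : ℂ) * Complex.I + ((√x : ℝ) : ℂ))‖ ^ 2)

/-- On the segment `1/2 + iT + √x`, `0 < x < 1/4 + δ`, there is no zero of `Λ`, and the derivative of order `k + 1`
satisfies `(-1)^k (d/dx)^(k+1) log |Λ(1/2 + iT + √x)|² ≥ -M`. -/
def Signs (D : Datum m) (k : ℕ) (δ M T : ℝ) : Prop := ∀ x : ℝ, 0 < x → x < 1 / 4 + δ →
  D.Λ (1 / 2 + (T : ℂ) * Complex.I + ((√x : ℝ) : ℂ)) ≠ 0 ∧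
    -M ≤ (-1) ^ k * iteratedDeriv (k + 1) (D.logSq T) x

end Datum

/-- `c_k = binom(2k, k) / 4^k`. -/
noncomputable def cc (k : ℕ) : ℝ := ((2 * k).choose k : ℝ) / 4 ^ k

variable {ι : Type} {m : ℕ}

/-- Upper and lower bounds to the right of the critical strip: for `1 < σ ≤ 3/2` and `ε > 0`,
`K⁻¹ 𝔠^(-ε) ≤ |L(σ + iT)| ≤ K 𝔠^ε` with `K = K(σ, ε)`, uniformly in the family and in `T`.  For all twists of a
fixed unitary cuspidal representation by unitary characters this holds with `ε = 0`, by the absolute convergence of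
the Euler product (Jacquet and Shalika). -/
def RightBound (D : ι → Datum m) : Prop := ∀ σ : ℝ, 1 < σ → σ ≤ 3 / 2 → ∀ ε : ℝ, 0 < ε → ∃ K : ℝ, 0 < K ∧
  ∀ (i : ι) (T : ℝ), K⁻¹ * (D i).C T ^ (-ε) ≤ ‖(D i).L (σ + (T : ℂ) * Complex.I)‖ ∧
    ‖(D i).L (σ + (T : ℂ) * Complex.I)‖ ≤ K * (D i).C T ^ ε

section proofs

open Pool.Agent.TH839.LD Pool.Agent.TH839.SC Pool.Agent.TH839.TU Pool.Agent.TH839.UH.EP

theorem Datum.Ok.hw (hm : 0 < m) {D : Datum m} {c : ℝ} (hc : 0 < c) (h : D.Ok c) :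
    HW m D.e D.N D.mu D.α D.Λ := by
  refine ⟨hm, h.e_le, h.N_ge, fun j => ?_, h.satake, h.entire, h.order, ?_, ?_⟩
  · linarith [h.mu_re j]
  · obtain ⟨w, hw, hfe⟩ := h.fe
    refine ⟨w, hw, fun s => ?_⟩
    have := hfe (1 - s)
    rw [sub_sub_cancel, map_sub, map_one] at this
    exact this
  · obtain ⟨σ, hσ⟩ := h.euler
    refine ⟨σ, fun s hs => ?_⟩
    rw [hσ s hs]
    unfold Datum.gamma E
    rfl

lemma C_eq (D : Datum m) (T : ℝ) : cd D.N D.mu T = D.C T := rfl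

lemma C_one {D : Datum m} {c : ℝ} (h : D.Ok c) (T : ℝ) : 1 ≤ D.C T := by
  rw [← C_eq]
  exact one_le_cd h.N_ge _ T

lemma cc_eq (k : ℕ) : ck k = cc k := by
  unfold ck cc
  rw [Nat.centralBinom_eq_two_mul_choose]

lemma cc_pos (k : ℕ) : 0 < cc k := by
  rw [← cc_eq]
  exact ck_pos k

lemma ck_succ (k : ℕ) : ck (k + 1) * (2 * k + 2) = ck k * (2 * k + 1) := by
  have h1 : ((k + 1 : ℕ) : ℝ) * (Nat.centralBinom (k + 1) : ℝ) = 2 * (2 * k + 1) * Nat.centralBinom k := by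
    exact_mod_cast Nat.succ_mul_centralBinom_succ k
  unfold ck
  push_cast at h1
  rw [pow_succ]
  field_simp
  linear_combination 2 * h1

lemma cc_sq_le (k : ℕ) : cc k ^ 2 * (2 * k + 1) ≤ 1 := by
  rw [← cc_eq]
  induction k with
  | zero => simp [ck]
  | succ k ih =>
    have h1 := ck_succ k
    have h2 : ck (k + 1) = ck k * (2 * k + 1) / (2 * k + 2) := by
      rw [eq_div_iff (by positivity)]
      exact h1
    rw [h2]
    push_cast
    rw [div_pow, div_mul_eq_mul_div, div_le_one (by positivity)]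
    have h3 : 0 ≤ ck k ^ 2 * (2 * k + 1) := mul_nonneg (sq_nonneg _) (by positivity)
    have h4 : (2 * (k : ℝ) + 1) * (2 * (k + 1) + 1) ≤ (2 * k + 2) ^ 2 := by
      ring_nf
      linarith
    calc (ck k * (2 * k + 1)) ^ 2 * (2 * (k + 1) + 1)
        = (ck k ^ 2 * (2 * k + 1)) * ((2 * (k : ℝ) + 1) * (2 * (k + 1) + 1)) := by ring
      _ ≤ 1 * ((2 * (k : ℝ) + 1) * (2 * (k + 1) + 1)) := mul_le_mul_of_nonneg_right ih (by positivity)
      _ ≤ _ := by linarith

/-- The local theorem. -/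
theorem local_bound (hm : 0 < m) {c : ℝ} (hc : 0 < c) {D : ι → Datum m} (h : ∀ i, (D i).Ok c)
    (hRB : RightBound D) (k : ℕ) (δ ε : ℝ) (hδ : 0 < δ) (hε : 0 < ε) :
    ∃ κ X₀ : ℝ, 0 < κ ∧ ∀ (i : ι) (T : ℝ), X₀ ≤ (D i).C T →
      (D i).Signs k δ (κ * Real.log ((D i).C T)) T →
      ‖(D i).L (1 / 2 + (T : ℂ) * Complex.I)‖ ≤ (D i).C T ^ (cc k / 4 + ε) := by
  have hR : Rb2 (fun i s => (D i).Λ s / gm (D i).e (D i).N (D i).mu s) (fun i => cd (D i).N (D i).mu) := by
    intro a1 h1 h2 κ hκ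
    obtain ⟨K, hK, HK⟩ := hRB (1 / 2 + a1) (by linarith) (by linarith) κ hκ
    refine ⟨K, hK, fun i T => ?_⟩
    have e : (((1 / 2 + a1 : ℝ)) : ℂ) + (T : ℂ) * Complex.I = 1 / 2 + (T : ℂ) * Complex.I + (a1 : ℂ) := by
      push_cast
      ring
    have := HK i T
    rw [e] at this
    exact this
  obtain ⟨κ, X₀, hκ, H⟩ := famC m k δ ε c hδ hε hc (fun i => (D i).e) (fun i => (D i).N)
    (fun i => (D i).mu) (fun i => (D i).α) (fun i => (D i).Λ) (fun i => (h i).hw hm hc)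
    (fun i => (h i).mu_re) hR
  refine ⟨κ, X₀, hκ, fun i T hX hT => ?_⟩
  rw [← cc_eq]
  exact H i T hX hT

/-- The central value in terms of a parameter `d` with `𝔠 ≍ d²`. -/
theorem central (hm : 0 < m) {c : ℝ} (hc : 0 < c) {D : ι → Datum m} (h : ∀ i, (D i).Ok c)
    (hRB : RightBound D) (k : ℕ) (δ ε : ℝ) (hδ : 0 < δ)
    (hε : 0 < ε) (d : ι → ℝ) (K : ℝ) (hK : 1 ≤ K) (hd : ∀ i, 0 < d i)
    (hC : ∀ i, d i ^ 2 / K ≤ (D i).C 0 ∧ (D i).C 0 ≤ K * d i ^ 2) :
    ∃ κ d₀ : ℝ, 0 < κ ∧ ∀ i, d₀ ≤ d i → (D i).Signs k δ (κ * Real.log (d i)) 0 →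
      ‖(D i).L (1 / 2)‖ ≤ d i ^ (cc k / 2 + ε) := by
  obtain ⟨κ, X₀, hκ, H⟩ := local_bound hm hc h hRB k δ (ε / 4) hδ (by positivity)
  have hlK : 0 ≤ Real.log K := Real.log_nonneg hK
  have hcc := cc_pos k
  obtain ⟨t0, ht0⟩ : ∃ t0 : ℝ, t0 = Real.log K +
      (cc k / 4 + ε) * Real.log K / (ε / 2) := ⟨_, rfl⟩
  refine ⟨κ, max (max (max X₀ 1 * K) 1) (Real.exp t0), hκ, fun i hdi hS => ?_⟩
  have hd1 : 1 ≤ d i := ((le_max_right _ _).trans (le_max_left _ _)).trans hdi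
  have hdX : max X₀ 1 * K ≤ d i := ((le_max_left _ _).trans (le_max_left _ _)).trans hdi
  have hdt : t0 ≤ Real.log (d i) := by
    rw [Real.le_log_iff_exp_le (hd i)]
    exact (le_max_right _ _).trans hdi
  have hl0 : 0 ≤ Real.log (d i) := Real.log_nonneg hd1
  obtain ⟨c1, c2⟩ := hC i
  have hCp : 0 < (D i).C 0 := lt_of_lt_of_le one_pos (C_one (h i) 0)
  have hX : X₀ ≤ (D i).C 0 := by
    refine le_trans ?_ c1
    rw [le_div_iff₀ (by linarith)]
    have h1 : X₀ * K ≤ max X₀ 1 * K := mul_le_mul_of_nonneg_right (le_max_left _ _) (by linarith)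
    have h2 : d i * 1 ≤ d i * d i := mul_le_mul_of_nonneg_left hd1 (hd i).le
    rw [sq]
    linarith
  have hlC : Real.log ((D i).C 0) ≤ Real.log K + 2 * Real.log (d i) := by
    have h1 := Real.log_le_log hCp c2
    rw [Real.log_mul (by positivity) (by have := hd i; positivity), Real.log_pow] at h1
    push_cast at h1
    exact h1
  have hlC2 : Real.log (d i) ≤ Real.log ((D i).C 0) := by
    have h1 := Real.log_le_log (by have := hd i; positivity) c1
    rw [Real.log_div (by have := hd i; positivity) (by positivity), Real.log_pow] at h1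
    push_cast at h1
    have h2 : Real.log K ≤ t0 := by
      rw [ht0]
      have : 0 ≤ (cc k / 4 + ε) * Real.log K / (ε / 2) := by positivity
      linarith
    linarith
  have ht2 : (cc k / 4 + ε) * Real.log K ≤ ε / 2 * Real.log (d i) := by
    have h1 : (cc k / 4 + ε) * Real.log K / (ε / 2) ≤ t0 := by
      rw [ht0]
      linarith
    have h2 := h1.trans hdt
    rw [div_le_iff₀ (by positivity)] at h2
    linarith
  have R := H i 0 hX (fun x hx1 hx2 => by
    obtain ⟨s1, s2⟩ := hS x hx1 hx2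
    refine ⟨s1, le_trans ?_ s2⟩
    have := mul_le_mul_of_nonneg_left hlC2 hκ.le
    linarith)
  have e1 : (1 / 2 + ((0 : ℝ) : ℂ) * Complex.I : ℂ) = 1 / 2 := by simp
  rw [e1] at R
  refine R.trans ?_
  rw [Real.rpow_def_of_pos hCp, Real.rpow_def_of_pos (hd i)]
  apply Real.exp_le_exp.2
  have h1 : Real.log ((D i).C 0) * (cc k / 4 + ε / 4) ≤
      (Real.log K + 2 * Real.log (d i)) * (cc k / 4 + ε / 4) :=
    mul_le_mul_of_nonneg_right hlC (by positivity)
  have h2 : Real.log K * (cc k / 4 + ε / 4) ≤ Real.log K * (cc k / 4 + ε) :=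
    mul_le_mul_of_nonneg_left (by linarith) hlK
  linarith

end proofs

/-- **One derivative of constant sign on a horizontal segment implies subconvexity**, with exponents which tend to
the Lindelöf exponent. -/
theorem result (ι : Type) (m : ℕ) (c : ℝ) (hm : 0 < m) (hc : 0 < c) (D : ι → Datum m)
    (h : ∀ i, (D i).Ok c) (hR : RightBound D) (k : ℕ) (δ ε : ℝ) (hδ : 0 < δ) (hε : 0 < ε) :
    (∀ (d : ι → ℝ) (K : ℝ), 1 ≤ K → (∀ i, 0 < d i) →
      (∀ i, d i ^ 2 / K ≤ (D i).C 0 ∧ (D i).C 0 ≤ K * d i ^ 2) →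
      ∃ κ d₀ : ℝ, 0 < κ ∧ ∀ i, d₀ ≤ d i → (D i).Signs k δ (κ * Real.log (d i)) 0 →
        ‖(D i).L (1 / 2)‖ ≤ d i ^ (cc k / 2 + ε)) ∧
    (∃ κ X₀ : ℝ, 0 < κ ∧ ∀ (i : ι) (T : ℝ), X₀ ≤ (D i).C T →
      (D i).Signs k δ (κ * Real.log ((D i).C T)) T →
      ‖(D i).L (1 / 2 + (T : ℂ) * Complex.I)‖ ≤ (D i).C T ^ (cc k / 4 + ε)) ∧
    cc k ≤ 1 / √(2 * k + 1) := by
  refine ⟨fun d K hK hd hC => central hm hc h hR k δ ε hδ hε d K hK hd hC,
    local_bound hm hc h hR k δ ε hδ hε, ?_⟩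
  have h1 : (0 : ℝ) < 2 * k + 1 := by positivity
  rw [le_div_iff₀ (Real.sqrt_pos.2 h1)]
  have h2 := cc_sq_le k
  have h3 : (cc k * √(2 * k + 1)) ^ 2 ≤ 1 ^ 2 := by
    rw [mul_pow, Real.sq_sqrt h1.le, one_pow]
    exact h2
  exact (abs_le_of_sq_le_sq' h3 zero_le_one).2

end Pool.Agent.Results.MP_21d687_nt.DerivativeSigns
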