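import Pool.Agent.TH839.TU.FamT

/-!
# Inequalities of Turán type for the Taylor coefficients at the centre imply strong subconvexity

Let `π` be a fixed cuspidal representation of `PGL(2)` over a number field `F`, `D ∈ O_F` square-free and
`Λ(s) = Λ(s, π ⊗ χ_D)` the completed L-function of the twist, `Λ(1 - s) = ±Λ(s)`.  If the sign is `+`, then
`Λ(1/2 + u) = ∑ a_n u^(2n)` with real `a_n`.  If the Riemann hypothesis holds for `Λ` and `Λ(1/2) ≠ 0`, then
`∑ a_n x^n` has only negative zeros, is of order `1/2`, and the classical inequalities of Turán hold: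

  `a_n² ≥ ((n + 1) / n) a_(n-1) a_(n+1)`  and  `a_n > 0` (up to a common sign)  for all `n ≥ 1`.

The trivial (convexity) bound for the central value is `|D|^(1/2 + ε)`, and the best known bounds are of Weyl strength
`|D|^(1/3 + ε)`.  We show that the Turán inequalities for the few orders `n ≤ (1/4 + κ) log |D|` imply

  `L(1/2, π ⊗ χ_D) ≪ |D|^(1/4 + ε)`.

More generally, let `0 ≤ q ≤ 2`: the inequalities `|a_n|² ≥ ((n + 1) / n)^q |a_(n-1) a_(n+1)|`, `a_n ≠ 0`, for these `n`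
imply the bound `|D|^((2 - q) / 4 + ε)`.  So `q = 0` (log-concavity) gives the convexity bound, `q = 1` (Turán) gives
`1/4`, and `q → 2` gives the Lindelöf bound.  No hypothesis on the zeros, on the signs or on the values of `L` is made.

There is also a version at any height.  For all `T` the function `|Λ(1/2 + iT + u)|²` of the real variable `u` is even
by the functional equation.  Let `A_n` be its coefficient at `u^(2n)` and `𝔠 = 𝔠(π, T)` the analytic conductor.  If the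
inequalities hold for `A_n`, `n ≤ (1/4 + κ) log 𝔠`, then `|L(1/2 + iT)| ≤ 𝔠^((2 - q) / 8 + ε)`.  If the Riemann hypothesis
holds for `Λ`, then they hold with `q = 1` for all `n` and `T` (the `A_n` are the generalised Laguerre expressions).

The theorem holds for all families of L-functions of given degree with uniform upper and lower bounds to the right
of the critical strip, in particular for all twists of a fixed cuspidal representation by unitary characters.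

Proof.  Let `h = (log 𝔠) / 2`, `f(u) = Λ(1/2 + u)`, and normalise `f` by the gamma factor, so that `f(u) = e^(hu + o(h))`
for real `u > 1/2` and, by convexity, `|f(u)| ≤ e^(h max(|u|, 1/2) + o(h))` for small `|u|`.  By Cauchy's
inequality `|a_n| ≤ 4^n e^(h/2 + o(h))` for `n ≤ h/4`, and since `f(1/2 + δ)` is large, there is `m` slightly larger than
`h / 4` with `|a_m| ≥ (1/2 + δ)^(-2m) e^(h (1/2 + δ) - o(h))`.  The numbers `G_n = n!^q |a_n|` are log-concave for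
`n ≤ m` by hypothesis.  Extrapolating from `n = h / 4` and from `m` to `0` we get
`|f(0)| = G_0 ≤ (G_n^m / G_m^n)^(1 / (m - n)) ≤ e^((2 - q) h / 4 + o(h))`.

The modules are `Pool.Agent.TH839.TU`.
-/

set_option autoImplicit false

namespace Pool.Agent.Results.MP_21d687_nt.TuranInequalities

open scoped ComplexConjugate

/-- The data of an L-function of degree `m` over the rational numbers: the conductor `N`, the order `e` of the
pole at `s = 1`, the archimedean parameters `mu j` (the factor at infinity is `∏ j, Γ_ℝ (s + mu j)`), the Satake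
parameters `α p j` and the completed function `Λ`.  For an L-function of degree `2` over a number field `F` the
degree is `m = 2 [F : ℚ]`. -/
structure Datum (m : ℕ) where
  N : ℝ
  e : ℕ
  mu : Fin m → ℂ
  α : Nat.Primes → Fin m → ℂ
  Λ : ℂ → ℂ

namespace Datum

variable {m : ℕ}

/-- The gamma factor `(s (s - 1))^e N^(s/2) ∏ j, Γ_ℝ (s + mu j)`. -/
noncomputable def gamma (D : Datum m) (s : ℂ) : ℂ :=
  (s * (s - 1)) ^ D.e * ((D.N : ℂ) ^ (s / 2) * ∏ j, Complex.Gammaℝ (s + D.mu j))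

/-- The L-function (without the factors at infinity) `L(s) = Λ(s) / gamma(s)` (used for `Re s ≥ 1/2`,
`Re s ≠ 1` only). -/
noncomputable def L (D : Datum m) (s : ℂ) : ℂ := D.Λ s / D.gamma s

/-- The analytic conductor at height `T`. -/
noncomputable def C (D : Datum m) (T : ℝ) : ℝ := D.N * ∏ j, (1 + ‖(T : ℂ) * Complex.I + D.mu j‖)

/-- The classical properties: `N ≥ 1`, `e ≤ m`, `Re (mu j) ≥ -1/2 + c`, `|α p j| ≤ p^(1/2)`, `Λ` is
entire of finite order with the functional equation `Λ(1 - s) = w conj Λ(conj s)`, `|w| = 1`, and for large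
`Re s` it is the product of `gamma(s)` and the Euler product `L(s) = ∏ p, ∏ j, (1 - α p j p^(-s))⁻¹`. -/
structure Ok (D : Datum m) (c : ℝ) : Prop where
  N_ge : 1 ≤ D.N
  e_le : D.e ≤ m
  mu_re : ∀ j, -1 / 2 + c ≤ (D.mu j).re
  satake : ∀ p j, ‖D.α p j‖ ≤ ((p : ℕ) : ℝ) ^ (1 / 2 : ℝ)
  entire : Differentiable ℂ D.Λ
  order : ∃ B ρ : ℝ, ∀ s : ℂ, ‖D.Λ s‖ ≤ Real.exp (B * (1 + ‖s‖) ^ ρ)
  fe : ∃ w : ℂ, ‖w‖ = 1 ∧ ∀ s : ℂ, D.Λ (1 - s) = w * conj (D.Λ (conj s))
  euler : ∃ σ : ℝ, ∀ s : ℂ, σ ≤ s.re →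
    D.Λ s = D.gamma s * ∏' p : Nat.Primes, ∏ j, (1 - D.α p j * ((p : ℕ) : ℂ) ^ (-s))⁻¹

/-- The function `u ↦ Λ(1/2 + u)`. -/
noncomputable def centre (D : Datum m) (u : ℂ) : ℂ := D.Λ (1 / 2 + u)

/-- The entire function which is `|Λ(1/2 + iT + u)|²` for real `u`. -/
noncomputable def square (D : Datum m) (T : ℝ) (u : ℂ) : ℂ :=
  D.Λ (1 / 2 + (T : ℂ) * Complex.I + u) * conj (D.Λ (1 / 2 + (T : ℂ) * Complex.I + conj u))

end Datum

/-- The absolute value of the coefficient at `u^(2n)` of the Taylor series of `Φ` at `0`. -/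
noncomputable def coeff (Φ : ℂ → ℂ) (n : ℕ) : ℝ := ‖iteratedDeriv (2 * n) Φ 0‖ / ((2 * n).factorial : ℝ)

/-- The Turán inequalities with exponent `q` for the absolute values `A_n` of the even Taylor coefficients:
`A_(n+1) ≠ 0` and `((n + 2) / (n + 1))^q A_n A_(n+2) ≤ A_(n+1)²` for all `n ≤ x`. -/
def Turan (q x : ℝ) (Φ : ℂ → ℂ) : Prop := ∀ n : ℕ, (n : ℝ) ≤ x → coeff Φ (n + 1) ≠ 0 ∧
  (((n : ℝ) + 2) / (n + 1)) ^ q * coeff Φ n * coeff Φ (n + 2) ≤ coeff Φ (n + 1) ^ 2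

variable {ι : Type} {m : ℕ}

/-- Upper and lower bounds to the right of the critical strip: for `1 < σ ≤ 3/2` and `ε > 0`,
`K⁻¹ 𝔠^(-ε) ≤ |L(σ + iT)| ≤ K 𝔠^ε` with `K = K(σ, ε)`, uniformly in the family and in `T`.  For all twists of a
fixed unitary cuspidal representation by unitary characters this holds with `ε = 0`, by the absolute convergence of
the Euler product (Jacquet and Shalika). -/
def RightBound (D : ι → Datum m) : Prop := ∀ σ : ℝ, 1 < σ → σ ≤ 3 / 2 → ∀ ε : ℝ, 0 < ε → ∃ K : ℝ, 0 < K ∧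
  ∀ (i : ι) (T : ℝ), K⁻¹ * (D i).C T ^ (-ε) ≤ ‖(D i).L (σ + (T : ℂ) * Complex.I)‖ ∧
    ‖(D i).L (σ + (T : ℂ) * Complex.I)‖ ≤ K * (D i).C T ^ ε

section proofs

open Pool.Agent.TH839.LD Pool.Agent.TH839.SC Pool.Agent.TH839.TU Pool.Agent.TH839.UH.EP

theorem Datum.Ok.hw (hm : 0 < m) {D : Datum m} {c : ℝ} (hc : 0 < c) (h : D.Ok c) :
    HW m D.e D.N D.mu D.α D.Λ := by
  refine ⟨hm, h.e_le, h.N_ge, fun j => ?_, h.satake, h.entire, h.order, ?_, ?_⟩
  · linarith [h.mu_re j]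
  · obtain ⟨w, hw, hfe⟩ := h.fe
    refine ⟨w, hw, fun s => ?_⟩
    have := hfe (1 - s)
    rw [sub_sub_cancel, map_sub, map_one] at this
    exact this
  · obtain ⟨σ, hσ⟩ := h.euler
    refine ⟨σ, fun s hs => ?_⟩
    rw [hσ s hs]
    unfold Datum.gamma E
    rfl

lemma C_eq (D : Datum m) (T : ℝ) : cd D.N D.mu T = D.C T := rfl

lemma C_one {D : Datum m} {c : ℝ} (h : D.Ok c) (T : ℝ) : 1 ≤ D.C T := by
  rw [← C_eq]
  exact one_le_cd h.N_ge _ T

/-- The local theorem, both versions. -/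
theorem local_bound (hm : 0 < m) {c : ℝ} (hc : 0 < c) {D : ι → Datum m} (h : ∀ i, (D i).Ok c)
    (hRB : RightBound D) (q κ ε : ℝ) (hq0 : 0 ≤ q) (hq2 : q ≤ 2) (hκ : 0 < κ) (hε : 0 < ε) :
    ∃ X₀ : ℝ, ∀ (i : ι) (T : ℝ), X₀ ≤ (D i).C T →
      (Turan q ((1 / 4 + κ) * Real.log ((D i).C T)) ((D i).square T) ∨
        (T = 0 ∧ (∀ s, (D i).Λ (1 - s) = (D i).Λ s) ∧
          Turan q ((1 / 8 + κ) * Real.log ((D i).C T)) (D i).centre)) →
      ‖(D i).L (1 / 2 + (T : ℂ) * Complex.I)‖ ≤ (D i).C T ^ ((2 - q) / 8 + ε) := by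
  have hR : Rb2 (fun i s => (D i).Λ s / gm (D i).e (D i).N (D i).mu s) (fun i => cd (D i).N (D i).mu) := by
    intro a1 h1 h2 κ hκ
    obtain ⟨K, hK, HK⟩ := hRB (1 / 2 + a1) (by linarith) (by linarith) κ hκ
    refine ⟨K, hK, fun i T => ?_⟩
    have e : (((1 / 2 + a1 : ℝ)) : ℂ) + (T : ℂ) * Complex.I = 1 / 2 + (T : ℂ) * Complex.I + (a1 : ℂ) := by
      push_cast
      ring
    have := HK i T
    rw [e] at this
    exact this
  obtain ⟨X₀, H⟩ := famT m q κ ε c hq0 hq2 hκ hε hc (fun i => (D i).e) (fun i => (D i).N)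
    (fun i => (D i).mu) (fun i => (D i).α) (fun i => (D i).Λ) (fun i => (h i).hw hm hc)
    (fun i => (h i).mu_re) hR
  exact ⟨X₀, fun i T hX hT => H i T hX hT⟩

/-- The central value in terms of a parameter `d` with `𝔠 ≍ d²`. -/
theorem central (hm : 0 < m) {c : ℝ} (hc : 0 < c) {D : ι → Datum m} (h : ∀ i, (D i).Ok c)
    (hRB : RightBound D) (q κ ε : ℝ) (hq0 : 0 ≤ q) (hq2 : q ≤ 2) (hκ : 0 < κ)
    (hε : 0 < ε) (d : ι → ℝ) (K : ℝ) (hK : 1 ≤ K) (hd : ∀ i, 0 < d i)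
    (hC : ∀ i, d i ^ 2 / K ≤ (D i).C 0 ∧ (D i).C 0 ≤ K * d i ^ 2) :
    ∃ d₀ : ℝ, ∀ i, d₀ ≤ d i → (∃ w : ℂ, (w = 1 ∨ w = -1) ∧ ∀ s, (D i).Λ (1 - s) = w * (D i).Λ s) →
      ((D i).Λ (1 / 2) ≠ 0 → Turan q ((1 / 4 + κ) * Real.log (d i)) (D i).centre) →
      ‖(D i).L (1 / 2)‖ ≤ d i ^ ((2 - q) / 4 + ε) := by
  obtain ⟨X₀, H⟩ := local_bound hm hc h hRB q (κ / 4) (ε / 4) hq0 hq2 (by positivity) (by positivity)
  have hlK : 0 ≤ Real.log K := Real.log_nonneg hK
  obtain ⟨t0, ht0⟩ : ∃ t0 : ℝ, t0 = (1 / 8 + κ / 4) * Real.log K / (κ / 2) +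
      (1 + ε) * Real.log K / (ε / 2) := ⟨_, rfl⟩
  refine ⟨max (max (max X₀ 1 * K) 1) (Real.exp t0), fun i hdi hfe hT => ?_⟩
  have hd1 : 1 ≤ d i := ((le_max_right _ _).trans (le_max_left _ _)).trans hdi
  have hdX : max X₀ 1 * K ≤ d i := ((le_max_left _ _).trans (le_max_left _ _)).trans hdi
  have hdt : t0 ≤ Real.log (d i) := by
    rw [Real.le_log_iff_exp_le (hd i)]
    exact (le_max_right _ _).trans hdi
  have hl0 : 0 ≤ Real.log (d i) := Real.log_nonneg hd1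
  have hL0 : (D i).Λ (1 / 2) = 0 → ‖(D i).L (1 / 2)‖ ≤ d i ^ ((2 - q) / 4 + ε) := by
    intro h0
    unfold Datum.L
    rw [h0, zero_div, norm_zero]
    exact Real.rpow_nonneg (hd i).le _
  by_cases h0 : (D i).Λ (1 / 2) = 0
  · exact hL0 h0
  obtain ⟨w, hw, hfe⟩ := hfe
  rcases hw with hw | hw
  swap
  · have h1 := hfe (1 / 2)
    rw [hw] at h1
    have h2 : (D i).Λ (1 / 2) = 0 := by
      have h3 : (1 - 1 / 2 : ℂ) = 1 / 2 := by norm_num
      rw [h3] at h1
      linear_combination h1 / 2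
    exact hL0 h2
  rw [hw] at hfe
  have hTu := hT h0
  obtain ⟨c1, c2⟩ := hC i
  have hCp : 0 < (D i).C 0 := lt_of_lt_of_le one_pos (C_one (h i) 0)
  have hX : X₀ ≤ (D i).C 0 := by
    refine le_trans ?_ c1
    rw [le_div_iff₀ (by linarith)]
    have h1 : X₀ * K ≤ max X₀ 1 * K := mul_le_mul_of_nonneg_right (le_max_left _ _) (by linarith)
    have h2 : d i * 1 ≤ d i * d i := mul_le_mul_of_nonneg_left hd1 (hd i).le
    rw [sq]
    linarith
  have hlC : Real.log ((D i).C 0) ≤ Real.log K + 2 * Real.log (d i) := by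
    have h1 := Real.log_le_log hCp c2
    rw [Real.log_mul (by positivity) (by have := hd i; positivity), Real.log_pow] at h1
    push_cast at h1
    exact h1
  have ht1 : (1 / 8 + κ / 4) * Real.log K ≤ κ / 2 * Real.log (d i) := by
    have h1 : (1 / 8 + κ / 4) * Real.log K / (κ / 2) ≤ t0 := by
      rw [ht0]
      have : 0 ≤ (1 + ε) * Real.log K / (ε / 2) := by positivity
      linarith
    have h2 := h1.trans hdt
    rw [div_le_iff₀ (by positivity)] at h2
    linarith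
  have ht2 : (1 + ε) * Real.log K ≤ ε / 2 * Real.log (d i) := by
    have h1 : (1 + ε) * Real.log K / (ε / 2) ≤ t0 := by
      rw [ht0]
      have : 0 ≤ (1 / 8 + κ / 4) * Real.log K / (κ / 2) := by positivity
      linarith
    have h2 := h1.trans hdt
    rw [div_le_iff₀ (by positivity)] at h2
    linarith
  have hrange : (1 / 8 + κ / 4) * Real.log ((D i).C 0) ≤ (1 / 4 + κ) * Real.log (d i) := by
    have h1 := mul_le_mul_of_nonneg_left hlC (by positivity : 0 ≤ 1 / 8 + κ / 4)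
    linarith
  have R := H i 0 hX (Or.inr ⟨rfl, fun s => by rw [hfe s, one_mul], fun n hn => hTu n (hn.trans hrange)⟩)
  have e1 : (1 / 2 + ((0 : ℝ) : ℂ) * Complex.I : ℂ) = 1 / 2 := by simp
  rw [e1] at R
  refine R.trans ?_
  rw [Real.rpow_def_of_pos hCp, Real.rpow_def_of_pos (hd i)]
  apply Real.exp_le_exp.2
  have h1 : Real.log ((D i).C 0) * ((2 - q) / 8 + ε / 4) ≤
      (Real.log K + 2 * Real.log (d i)) * ((2 - q) / 8 + ε / 4) :=
    mul_le_mul_of_nonneg_right hlC (by linarith)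
  have h2 : Real.log K * ((2 - q) / 8 + ε / 4) ≤ Real.log K * (1 + ε) :=
    mul_le_mul_of_nonneg_left (by linarith) hlK
  linarith

end proofs

/-- **Turán inequalities at the centre imply strong subconvexity.** -/
theorem result (ι : Type) (m : ℕ) (c : ℝ) (hm : 0 < m) (hc : 0 < c) (D : ι → Datum m)
    (h : ∀ i, (D i).Ok c) (hR : RightBound D) (q κ ε : ℝ) (hq0 : 0 ≤ q) (hq2 : q ≤ 2)
    (hκ : 0 < κ) (hε : 0 < ε) :
    (∀ (d : ι → ℝ) (K : ℝ), 1 ≤ K → (∀ i, 0 < d i) →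
      (∀ i, d i ^ 2 / K ≤ (D i).C 0 ∧ (D i).C 0 ≤ K * d i ^ 2) →
      ∃ d₀ : ℝ, ∀ i, d₀ ≤ d i → (∃ w : ℂ, (w = 1 ∨ w = -1) ∧ ∀ s, (D i).Λ (1 - s) = w * (D i).Λ s) →
        ((D i).Λ (1 / 2) ≠ 0 → Turan q ((1 / 4 + κ) * Real.log (d i)) (D i).centre) →
        ‖(D i).L (1 / 2)‖ ≤ d i ^ ((2 - q) / 4 + ε)) ∧
    (∃ X₀ : ℝ, ∀ (i : ι) (T : ℝ), X₀ ≤ (D i).C T →
      ((D i).Λ (1 / 2 + (T : ℂ) * Complex.I) ≠ 0 →
        Turan q ((1 / 4 + κ) * Real.log ((D i).C T)) ((D i).square T)) →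
      ‖(D i).L (1 / 2 + (T : ℂ) * Complex.I)‖ ≤ (D i).C T ^ ((2 - q) / 8 + ε)) := by
  refine ⟨fun d K hK hd hC => central hm hc h hR q κ ε hq0 hq2 hκ hε d K hK hd hC, ?_⟩
  obtain ⟨X₀, H⟩ := local_bound hm hc h hR q κ ε hq0 hq2 hκ hε
  refine ⟨X₀, fun i T hX hT => ?_⟩
  by_cases h0 : (D i).Λ (1 / 2 + (T : ℂ) * Complex.I) = 0
  · unfold Datum.L
    rw [h0, zero_div, norm_zero]
    exact Real.rpow_nonneg (le_trans zero_le_one (C_one (h i) T)) _
  · exact H i T hX (Or.inl (hT h0))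

end Pool.Agent.Results.MP_21d687_nt.TuranInequalities
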